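import Pool.Agent.H14.AVR.Stmts

/-!
# AVR, module STAB
-/

set_option autoImplicit false

namespace Pool.AVR

open Polynomial Matrix

namespace STABaux

variable {K : Type} [Field K]

theorem AA_sq : AA K * AA K = 1 := by
  ext i j
  fin_cases i <;> fin_cases j <;> simp [AA, Matrix.mul_apply, Fin.sum_univ_three]

/-- A matrix commuting with one with irreducible characteristic polynomial is zero or
invertible. -/
theorem comm_zero (M N : Matrix (Fin 3) (Fin 3) K) (hq : Irreducible M.charpoly)
    (hc : N * M = M * N) (hN : N.det = 0) : N = 0 := by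
  obtain ⟨v, hv0, hv⟩ := Matrix.exists_mulVec_eq_zero_iff.mpr hN
  set P : Matrix (Fin 3) (Fin 3) K := Matrix.of (fun i j => ((M ^ (j : ℕ)) *ᵥ v) i) with hP
  have hcomm : ∀ k : ℕ, N * M ^ k = M ^ k * N := fun k => (Commute.pow_right hc k)
  have hNP : N * P = 0 := by
    ext i j
    have h1 : N *ᵥ ((M ^ (j : ℕ)) *ᵥ v) = 0 := by
      rw [Matrix.mulVec_mulVec, hcomm, ← Matrix.mulVec_mulVec, hv, Matrix.mulVec_zero]
    have h2 := congrFun h1 i
    simpa [Matrix.mul_apply, Matrix.mulVec, dotProduct, hP] using h2
  have hPdet : P.det ≠ 0 := by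
    intro h0
    obtain ⟨c, hc0, hPc⟩ := Matrix.exists_mulVec_eq_zero_iff.mpr h0
    set p : K[X] := C (c 0) + C (c 1) * X + C (c 2) * X ^ 2 with hp
    have hp0 : p ≠ 0 := by
      intro h
      apply hc0
      funext i
      have e0 : p.coeff 0 = c 0 := by simp [hp, coeff_X]
      have e1 : p.coeff 1 = c 1 := by simp [hp, coeff_C]
      have e2 : p.coeff 2 = c 2 := by simp [hp]
      rw [h] at e0 e1 e2
      fin_cases i
      · simpa using e0.symm
      · simpa using e1.symm
      · simpa using e2.symm
    have hpv : (aeval M p) *ᵥ v = 0 := by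
      have h1 : (aeval M p) = c 0 • (1 : Matrix (Fin 3) (Fin 3) K) + c 1 • M + c 2 • M ^ 2 := by
        simp [hp, Algebra.algebraMap_eq_smul_one]
      rw [h1]
      funext i
      have h2 := congrFun hPc i
      simp only [Matrix.mulVec, dotProduct, hP, Matrix.of_apply, Fin.sum_univ_three,
        Pi.zero_apply] at h2
      simp only [Matrix.add_mulVec, Matrix.smul_mulVec, Matrix.one_mulVec, Pi.add_apply,
        Pi.smul_apply, smul_eq_mul, Pi.zero_apply]
      simp only [Matrix.mulVec, dotProduct, Fin.sum_univ_three] at h2 ⊢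
      simp at h2
      have h5 := congrFun (Matrix.one_mulVec v) i
      simp only [Matrix.mulVec, dotProduct, Fin.sum_univ_three] at h5
      linear_combination h2 - c 0 * h5
    have hdeg : p.natDegree ≤ 2 := by
      rw [hp]
      compute_degree
    have hqdeg : M.charpoly.natDegree = 3 := by
      rw [Matrix.charpoly_natDegree_eq_dim]
      simp
    have hnd : ¬ M.charpoly ∣ p := by
      intro h
      have := natDegree_le_of_dvd h hp0
      omega
    obtain ⟨a, b, hab⟩ := (hq.coprime_iff_not_dvd).mpr hnd
    have h3 := congrArg (aeval M) hab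
    rw [map_add, map_mul, map_mul, Matrix.aeval_self_charpoly, mul_zero, zero_add, map_one] at h3
    apply hv0
    calc v = (1 : Matrix (Fin 3) (Fin 3) K) *ᵥ v := (Matrix.one_mulVec v).symm
      _ = (aeval M b * aeval M p) *ᵥ v := by rw [h3]
      _ = 0 := by rw [← Matrix.mulVec_mulVec, hpv, Matrix.mulVec_zero]
  have hu : IsUnit P.det := isUnit_iff_ne_zero.mpr hPdet
  calc N = N * (P * P⁻¹) := by rw [Matrix.mul_nonsing_inv _ hu, mul_one]
    _ = 0 := by rw [← mul_assoc, hNP, zero_mul]

end STABaux

theorem STAB_thm : STABStmt := by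
  intro K _ h2 B g hB hirr hg hgB hdet
  have hA := STABaux.AA_sq (K := K)
  have h1 : (AA K * gᵀ * AA K) * g = 1 := by
    calc (AA K * gᵀ * AA K) * g = AA K * (gᵀ * AA K * g) := by simp only [mul_assoc]
      _ = 1 := by rw [hg, hA]
  have h3 : g * (AA K * gᵀ * AA K) = 1 := mul_eq_one_comm.mp h1
  have h4 : g * AA K * gᵀ = AA K := by
    calc g * AA K * gᵀ = g * (AA K * gᵀ * AA K) * AA K := by
          simp only [mul_assoc]
          rw [hA, mul_one]
      _ = AA K := by rw [h3, one_mul]
  have hcomm : g * (AA K * B) = (AA K * B) * g := by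
    calc g * (AA K * B) = g * (AA K * (gᵀ * B * g)) := by rw [hgB]
      _ = (g * AA K * gᵀ) * (B * g) := by simp only [mul_assoc]
      _ = (AA K * B) * g := by rw [h4, mul_assoc]
  have hdet1 : (g - 1).det = 0 := by
    have e1 : (g - 1).det = (1 - g).det := by
      have e2 : g - 1 = g * (AA K * (1 - gᵀ) * AA K) := by
        rw [mul_sub, sub_mul, mul_sub, mul_one, hA, mul_one, h3]
      have hAd : (AA K).det * (AA K).det = 1 := by
        rw [← Matrix.det_mul, hA, Matrix.det_one]
      rw [e2, Matrix.det_mul, Matrix.det_mul, Matrix.det_mul, hdet, one_mul]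
      have e3 : (1 - gᵀ).det = (1 - g).det := by
        rw [← Matrix.det_transpose (1 - g), Matrix.transpose_sub, Matrix.transpose_one]
      rw [e3]
      linear_combination (1 - g).det * hAd
    have e4 : (1 - g).det = - (g - 1).det := by
      rw [← neg_sub g 1, Matrix.det_neg, Fintype.card_fin]
      ring
    have e5 : (2 : K) * (g - 1).det = 0 := by
      rw [e4] at e1
      linear_combination e1
    exact (mul_eq_zero.mp e5).resolve_left h2
  have hz := STABaux.comm_zero (AA K * B) (g - 1) hirr (by
    rw [sub_mul, mul_sub, hcomm, one_mul, mul_one]) hdet1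
  exact sub_eq_zero.mp hz

end Pool.AVR
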